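import Pool.Agent.H26.ES.Chn

/-! Part HOM of crew ES. -/

set_option autoImplicit false

namespace H14.ES

open MeasureTheory Set
open scoped ENNReal commutatorElement

theorem smul_cancel {Λ Y : Type} [Group Λ] [MulAction Λ Y] (hf : ∀ (l : Λ) (y : Y), l • y = y → l = 1)
    {l l' : Λ} {y : Y} (h : l • y = l' • y) : l = l' := by
  have h1 : (l'⁻¹ * l) • y = y := by rw [mul_smul, h, inv_smul_smul]
  have h2 := hf _ _ h1
  rw [inv_mul_eq_one] at h2
  exact h2.symm

theorem exists_coc {X Λ Y : Type} [MeasurableSpace X] [Group Λ] [Countable Λ] [MeasurableSpace Λ]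
    [DiscreteMeasurableSpace Λ] [MeasurableSpace Y] [StandardBorelSpace Y] [MulAction Λ Y]
    (hm : ∀ l : Λ, Measurable (fun y : Y => l • y)) (hfr : ∀ (l : Λ) (y : Y), l • y = y → l = 1)
    (f : X → Y) (hf : Measurable f) (T : X → X) (hT : Measurable T) :
    ∃ c : X → Λ, Measurable c ∧ ∀ x, (∃ l : Λ, f (T x) = l • f x) → f (T x) = c x • f x := by
  classical
  obtain ⟨c, hc⟩ : ∃ c : X → Λ, c = fun x => if h : ∃ l : Λ, f (T x) = l • f x then h.choose else 1 :=
    ⟨_, rfl⟩
  have hc1 : ∀ x, (∃ l : Λ, f (T x) = l • f x) → f (T x) = c x • f x := by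
    intro x hx
    rw [hc]
    simp only
    rw [dif_pos hx]
    exact hx.choose_spec
  have hc2 : ∀ x, ¬ (∃ l : Λ, f (T x) = l • f x) → c x = 1 := by
    intro x hx
    rw [hc]
    simp only
    rw [dif_neg hx]
  have hS : ∀ l : Λ, MeasurableSet {x | f (T x) = l • f x} := fun l =>
    measurableSet_eq_fun (hf.comp hT) ((hm l).comp hf)
  refine ⟨c, ?_, hc1⟩
  refine measurable_to_countable' fun l => ?_
  have hE : MeasurableSet {x | ∃ l : Λ, f (T x) = l • f x} := by
    have : {x | ∃ l : Λ, f (T x) = l • f x} = ⋃ l : Λ, {x | f (T x) = l • f x} := by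
      ext x; simp
    rw [this]
    exact MeasurableSet.iUnion hS
  by_cases hl : l = 1
  · have : c ⁻¹' {l} = {x | f (T x) = l • f x} ∪ {x | ∃ l : Λ, f (T x) = l • f x}ᶜ := by
      ext x
      simp only [mem_preimage, mem_singleton_iff, mem_union, mem_ofPred_eq, mem_compl_iff]
      constructor
      · intro h
        by_cases hx : ∃ l : Λ, f (T x) = l • f x
        · left
          rw [← h]
          exact hc1 x hx
        · right; exact hx
      · rintro (h | h)
        · have h1 := hc1 x ⟨l, h⟩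
          exact smul_cancel hfr (h1.symm.trans h)
        · rw [hl]; exact hc2 x h
    rw [this]
    exact (hS l).union hE.compl
  · have : c ⁻¹' {l} = {x | f (T x) = l • f x} := by
      ext x
      simp only [mem_preimage, mem_singleton_iff, mem_ofPred_eq]
      constructor
      · intro h
        by_cases hx : ∃ l : Λ, f (T x) = l • f x
        · rw [← h]
          exact hc1 x hx
        · exact absurd (h.symm.trans (hc2 x hx)) hl
      · intro h
        have h1 := hc1 x ⟨l, h⟩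
        exact smul_cancel hfr (h1.symm.trans h)
    rw [this]
    exact hS l

theorem t_HOM (hCHN : S_CHN) (hUNT : S_UNT) (hREI : S_REI) : S_HOM := by
  intro D _ ρ hρ F _ _ π hπ hinf Λ _ _ Y _ _ _ hm hfr f hf hβ0 hα0
  letI : MeasurableSpace Λ := ⊤
  haveI : DiscreteMeasurableSpace Λ := ⟨fun _ => trivial⟩
  have hα1 : ∀ k, ∃ c : (D → Bool) → Λ, Measurable c ∧ ∀ x,
      (∃ l : Λ, f (sh (π k) x) = l • f x) → f (sh (π k) x) = c x • f x := fun k =>
    exists_coc hm hfr f hf (sh (π k)) (measurable_sh _)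
  have hβ1 : ∀ s, ∃ c : (D → Bool) → Λ, Measurable c ∧ ∀ x,
      (∃ l : Λ, f (sh (ρ (FreeGroup.of s)) x) = l • f x) →
        f (sh (ρ (FreeGroup.of s)) x) = c x • f x := fun s =>
    exists_coc hm hfr f hf (sh (ρ (FreeGroup.of s))) (measurable_sh _)
  choose α hαm hα using hα1
  choose β hβm hβ using hβ1
  have hc1 : ∀ k k', ∀ᵐ x ∂(mu D), α (k * k') x = α k (sh (π k') x) * α k' x := by
    intro k k'
    have h1 := (sh_mp hREI (π k')).quasiMeasurePreserving.ae (hα0 k)
    filter_upwards [hα0 (k * k'), h1, hα0 k'] with x h2 h3 h4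
    have e1 := hα _ _ h2
    have e2 := hα _ _ h3
    have e3 := hα _ _ h4
    rw [map_mul, sh_mul, e2, e3, ← mul_smul] at e1
    exact (smul_cancel hfr e1).symm
  have hc2 : ∀ s k, ∀ᵐ x ∂(mu D), β s (sh (π k) x) * α k x =
      α k (sh (ρ (FreeGroup.of s)) x) * β s x := by
    intro s k
    have h1 := (sh_mp hREI (π k)).quasiMeasurePreserving.ae (hβ0 s)
    have h2 := (sh_mp hREI (ρ (FreeGroup.of s))).quasiMeasurePreserving.ae (hα0 k)
    filter_upwards [h1, h2, hα0 k, hβ0 s] with x h3 h4 h5 h6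
    have e1 := hβ _ _ h3
    have e2 := hα _ _ h4
    have e3 := hα _ _ h5
    have e4 := hβ _ _ h6
    rw [← sh_mul, hπ, sh_mul, e2, e4, e3, ← mul_smul, ← mul_smul] at e1
    exact (smul_cancel hfr e1).symm
  obtain ⟨Φ, hΦ, hΦ1⟩ := hCHN D ρ hρ F π hπ hinf Λ α β hαm hβm hc1 hc2
  obtain ⟨b, φ, hb, hbφ⟩ := hUNT D F π hinf Λ α hαm hc1 Φ hΦ hΦ1
  refine ⟨fun x => (b x)⁻¹ • f x, φ, ?_, fun x => ⟨(b x)⁻¹, rfl⟩, fun k => ?_⟩
  · have h1 : Measurable (fun q : Λ × Y => q.1⁻¹ • q.2) :=
      measurable_from_prod_countable_right fun l => hm l⁻¹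
    exact h1.comp (hb.prodMk hf)
  · filter_upwards [hbφ k, hα0 k] with x h1 h2
    have e1 := hα _ _ h2
    rw [e1, h1, ← mul_smul, ← mul_smul]
    congr 1
    group

end H14.ES
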