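import Pool.Agent.H26.ES.Uni

/-! Part CHN of crew ES. -/

set_option autoImplicit false

namespace H14.ES

open MeasureTheory Set
open scoped ENNReal commutatorElement

theorem sh_mul {I : Type} (p q : Equiv.Perm I) (ω : I → Bool) : sh (p * q) ω = sh p (sh q ω) := by
  funext i
  simp only [sh, mul_inv_rev, Equiv.Perm.mul_apply]

theorem sh_one {I : Type} (ω : I → Bool) : sh 1 ω = ω := by
  funext i
  simp [sh]

theorem lift_mul {D : Type} (p q : Equiv.Perm D) : lift (p * q) = lift p * lift q := by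
  ext i <;> simp [lift]

theorem lift_one {D : Type} : lift (1 : Equiv.Perm D) = 1 := by
  ext i <;> simp [lift]

theorem lift_pow {D : Type} (p : Equiv.Perm D) (n : ℕ) : lift (p ^ n) = lift p ^ n := by
  induction n with
  | zero => simp [lift_one]
  | succ n ih => rw [pow_succ, lift_mul, ih, pow_succ]

theorem infOrb_lift {D : Type} {p : Equiv.Perm D} (h : InfOrb p) : InfOrb (lift p) := by
  intro i n hn hi
  rw [← lift_pow] at hi
  apply h i.1 n hn
  have := congrArg Prod.fst hi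
  simpa [lift] using this

theorem lab_lt (m : ℕ) (u : ℕ → Bool) : lab m u < 2 ^ m := by
  unfold lab
  have h1 : ∑ j ∈ Finset.range m, (if u (j + 2) then 2 ^ j else 0) ≤ ∑ j ∈ Finset.range m, 2 ^ j := by
    refine Finset.sum_le_sum fun j _ => ?_
    split_ifs
    · exact le_rfl
    · exact Nat.zero_le _
  refine lt_of_le_of_lt h1 ?_
  rw [Nat.geomSum_eq (le_refl 2)]
  have : 1 ≤ 2 ^ m := Nat.one_le_two_pow
  omega

theorem pt_zero {D : Type} (m : ℕ) (ω : D × ℕ → Bool) : pt m 0 ω = lay 0 ω := by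
  funext d
  simp [pt, lay]

theorem pt_top {D : Type} (m : ℕ) (ω : D × ℕ → Bool) : pt m (2 ^ m) ω = lay 1 ω := by
  funext d
  simp only [pt, lay]
  rw [if_pos (lab_lt m _)]

theorem t_CHN (hUNI : S_UNI) (hMIN : S_MIN) (hERG : S_ERG) (hLAW : S_LAW) (hREI : S_REI) :
    S_CHN := by
  intro D _ ρ hρ F _ _ π hπ hinf Λ _ _ _ _ α β hα hβ hc1 hc2
  obtain ⟨m, hm⟩ := hUNI D ρ hρ F π hπ Λ α β hα hβ hc2 (1 / 100) (by simp)
  obtain ⟨hL1, -, -, -, hL5, hL6⟩ := hLAW D m
  have hpair : ∀ j < 2 ^ m, MeasurePreserving (fun ω : D × ℕ → Bool => (pt m j ω, pt m (j + 1) ω))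
      (mu (D × ℕ)) (nu D m) := fun j hj =>
    ⟨(measurable_pt _ _).prodMk (measurable_pt _ _), hL1 j hj⟩
  have hp1 : ∀ j < 2 ^ m, MeasurePreserving (pt (D := D) m j) (mu (D × ℕ)) (mu D) := fun j hj => by
    have h1 : MeasurePreserving (Prod.fst : (D → Bool) × (D → Bool) → (D → Bool))
        (nu D m) (mu D) := ⟨measurable_fst, hL5⟩
    exact h1.comp (hpair j hj)
  have hp2 : ∀ j < 2 ^ m, MeasurePreserving (pt (D := D) m (j + 1)) (mu (D × ℕ)) (mu D) :=
    fun j hj => by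
    have h1 : MeasurePreserving (Prod.snd : (D → Bool) × (D → Bool) → (D → Bool))
        (nu D m) (mu D) := ⟨measurable_snd, hL6⟩
    exact h1.comp (hpair j hj)
  obtain ⟨k0, hk0⟩ := hinf
  have hco : ∀ g : (D × ℕ → Bool) → (D → Bool), MeasurePreserving g (mu (D × ℕ)) (mu D) →
      (∀ p ω, g (sh (lift p) ω) = sh p (g ω)) → ∀ k k', ∀ᵐ ξ ∂(mu (D × ℕ)),
      α (k * k') (g ξ) = α k (g (sh (lift (π k')) ξ)) * α k' (g ξ) := by
    intro g hg hgs k k'
    have h1 := hg.quasiMeasurePreserving.ae (hc1 k k')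
    filter_upwards [h1] with ξ hξ
    rw [hgs]
    exact hξ
  -- the pieces
  have hphi : ∀ j < 2 ^ m, ∃ φ : (D × ℕ → Bool) → Λ, Measurable φ ∧ ∀ k, ∀ᵐ ω ∂(mu (D × ℕ)),
      φ (sh (lift (π k)) ω) = α k (pt m j ω) * φ ω * (α k (pt m (j + 1) ω))⁻¹ := by
    intro j hj
    refine hMIN (D × ℕ → Bool) (mu (D × ℕ)) F (fun k => sh (lift (π k))) ?_ ?_ ?_ ?_ Λ
      (fun k ω => α k (pt m j ω)) (fun k ω => α k (pt m (j + 1) ω)) ?_ ?_ ?_ ?_ ?_
    · intro ξ
      simp only [map_one, lift_one, sh_one]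
    · intro k k' ξ
      simp only [map_mul, lift_mul, sh_mul]
    · intro k
      exact sh_mp hREI (lift (π k))
    · intro A hA h
      exact hERG (D × ℕ) (lift (π k0)) (infOrb_lift hk0) A hA (h k0)
    · intro k
      exact (hα k).comp (measurable_pt _ _)
    · intro k
      exact (hα k).comp (measurable_pt _ _)
    · exact hco _ (hp1 j hj) (fun p ω => pt_sh m j p ω)
    · exact hco _ (hp2 j hj) (fun p ω => pt_sh m (j + 1) p ω)
    · intro k
      have hset : MeasurableSet {q : (D → Bool) × (D → Bool) | α k q.1 ≠ α k q.2} :=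
        (measurableSet_eq_fun ((hα k).comp measurable_fst) ((hα k).comp measurable_snd)).compl
      have h1 := (hpair j hj).measure_preimage hset.nullMeasurableSet
      refine le_trans (le_of_eq ?_) (hm k)
      rw [← h1]
      rfl
  -- the product
  have hprod : ∀ J ≤ 2 ^ m, ∃ Φ : (D × ℕ → Bool) → Λ, Measurable Φ ∧ ∀ k, ∀ᵐ ω ∂(mu (D × ℕ)),
      Φ (sh (lift (π k)) ω) = α k (pt m 0 ω) * Φ ω * (α k (pt m J ω))⁻¹ := by
    intro J
    induction J with
    | zero =>
      intro _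
      refine ⟨fun _ => 1, measurable_const, fun k => Filter.Eventually.of_forall fun ω => ?_⟩
      simp
    | succ J ih =>
      intro hJ
      obtain ⟨Φ, hΦ, h1⟩ := ih (by omega)
      obtain ⟨φ, hφ, h2⟩ := hphi J (by omega)
      refine ⟨fun ω => Φ ω * φ ω, ?_, fun k => ?_⟩
      · have h3 : Measurable (fun q : Λ × Λ => q.1 * q.2) := measurable_of_countable _
        exact h3.comp (hΦ.prodMk hφ)
      · filter_upwards [h1 k, h2 k] with ω h3 h4
        rw [h3, h4]
        group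
  obtain ⟨Φ, hΦ, h⟩ := hprod (2 ^ m) le_rfl
  refine ⟨Φ, hΦ, fun k => ?_⟩
  filter_upwards [h k] with ω hω
  rw [hω, pt_zero, pt_top]

end H14.ES
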