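import Pool.Agent.H14.ES.Stm

/-! Part UNI of crew ES. -/

set_option autoImplicit false

namespace H14.ES

open MeasureTheory Set
open scoped ENNReal commutatorElement

/-- replace layer `0` -/
def repl {D : Type} (q : (D → Bool) × (D × ℕ → Bool)) : D × ℕ → Bool :=
  fun i => if i.2 = 0 then q.1 i.1 else q.2 i

theorem lab_repl {D : Type} (m : ℕ) (q : (D → Bool) × (D × ℕ → Bool)) (d : D) :
    lab m (fun n => repl q (d, n)) = lab m (fun n => q.2 (d, n)) := by
  unfold lab
  refine Finset.sum_congr rfl fun j _ => ?_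
  simp [repl]

theorem sh_mp (h2 : S_REI) {D : Type} [Countable D] (p : Equiv.Perm D) :
    MeasurePreserving (sh p) (mu D) (mu D) := by
  have := h2 D D p⁻¹
  exact this

theorem measurable_lay {D : Type} (n : ℕ) : Measurable (lay (D := D) n) := by
  unfold lay
  exact measurable_pi_lambda _ fun d => measurable_pi_apply _

theorem measurable_labD {D : Type} (m : ℕ) (d : D) :
    Measurable (fun ω : D × ℕ → Bool => lab m (fun n => ω (d, n))) := by
  unfold lab
  refine Finset.measurable_sum _ fun j _ => ?_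
  refine Measurable.ite ?_ measurable_const measurable_const
  exact measurableSet_eq_fun (measurable_pi_apply (d, j + 2)) measurable_const

theorem measurable_rs {D : Type} (m i : ℕ) : Measurable (rs (D := D) m i) := by
  unfold rs
  refine measurable_pi_lambda _ fun d => ?_
  refine Measurable.ite ?_ (measurable_pi_apply _) (measurable_pi_apply _)
  exact (measurable_labD m d) (measurableSet_singleton i)

theorem measurable_pt {D : Type} (m i : ℕ) : Measurable (pt (D := D) m i) := by
  unfold pt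
  refine measurable_pi_lambda _ fun d => ?_
  refine Measurable.ite ?_ (measurable_pi_apply _) (measurable_pi_apply _)
  exact (measurable_labD m d) (measurableSet_Iio)

theorem measurable_sh {D : Type} (p : Equiv.Perm D) : Measurable (sh p) := by
  unfold sh
  exact measurable_pi_lambda _ fun d => measurable_pi_apply _

theorem rs_sh {D : Type} (m i : ℕ) (p : Equiv.Perm D) (ω : D × ℕ → Bool) :
    rs m i (sh (lift p) ω) = sh p (rs m i ω) := by
  funext d
  simp only [rs, sh, lift]
  rfl

theorem pt_sh {D : Type} (m i : ℕ) (p : Equiv.Perm D) (ω : D × ℕ → Bool) :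
    pt m i (sh (lift p) ω) = sh p (pt m i ω) := by
  funext d
  simp only [pt, sh, lift]
  rfl

theorem lay_sh {D : Type} (i : ℕ) (p : Equiv.Perm D) (ω : D × ℕ → Bool) :
    lay i (sh (lift p) ω) = sh p (lay i ω) := by
  funext d
  simp only [lay, sh, lift]
  rfl

theorem repl_sh {D : Type} (p : Equiv.Perm D) (x : D → Bool) (ω : D × ℕ → Bool) :
    repl (sh p x, sh (lift p) ω) = sh (lift p) (repl (x, ω)) := by
  funext d
  simp only [repl, sh, lift]
  rfl

theorem lay_repl {D : Type} (q : (D → Bool) × (D × ℕ → Bool)) : lay 0 (repl q) = q.1 := by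
  funext d
  simp [lay, repl]

theorem t_UNI (hSGP : S_SGP) (hLAW : S_LAW) (hDEL : S_DEL) (hREP : S_REP) (hREI : S_REI) :
    S_UNI := by
  intro D _ ρ hρ F _ π hπ Λ _ _ _ _ α β hα hβ hc2 η hη
  -- the small number
  obtain ⟨δ, hδ0, hδη⟩ : ∃ δ : ℝ, 0 < δ ∧
      ENNReal.ofReal (4 * Real.sqrt (2 * (2 * δ))) + ENNReal.ofReal (4 * Real.sqrt (2 * (2 * δ))) ≤ η := by
    rcases eq_or_ne η ∞ with h | h
    · exact ⟨1, one_pos, by rw [h]; exact le_top⟩
    · have hη' : 0 < η.toReal := ENNReal.toReal_pos hη h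
      refine ⟨(η.toReal / 16) ^ 2, by positivity, ?_⟩
      have e : Real.sqrt (2 * (2 * (η.toReal / 16) ^ 2)) = η.toReal / 8 := by
        rw [show 2 * (2 * (η.toReal / 16) ^ 2) = (η.toReal / 8) ^ 2 by ring]
        exact Real.sqrt_sq (by positivity)
      rw [e, ← ENNReal.ofReal_add (by positivity) (by positivity)]
      rw [show 4 * (η.toReal / 8) + 4 * (η.toReal / 8) = η.toReal by ring]
      exact le_of_eq (ENNReal.ofReal_toReal h)
  have hδE : ENNReal.ofReal δ ≠ 0 := by
    rw [Ne, ENNReal.ofReal_eq_zero, not_le]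
    exact hδ0
  obtain ⟨m1, hm1⟩ := hDEL D Λ (β true) (hβ true) _ hδE
  obtain ⟨m2, hm2⟩ := hDEL D Λ (β false) (hβ false) _ hδE
  obtain ⟨m, hm⟩ : ∃ m, m = max m1 m2 := ⟨_, rfl⟩
  have hβδ : ∀ s, nu D (m + 1) {q | β s q.1 ≠ β s q.2} ≤ ENNReal.ofReal δ := by
    intro s
    cases s
    · exact hm2 _ (by omega)
    · exact hm1 _ (by omega)
  refine ⟨m, fun k => ?_⟩
  obtain ⟨-, hL2, -, hL4, hL5, hL6⟩ := hLAW D (m + 1)
  have hL3 := (hLAW D m).2.2.1
  have hL2' := hL2 (by omega)
  have hrep : MeasurePreserving (repl (D := D)) ((mu D).prod (mu (D × ℕ))) (mu (D × ℕ)) :=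
    (hREP D).1
  -- the function V
  obtain ⟨V, hV⟩ : ∃ V : (D → Bool) × (D × ℕ → Bool) → Λ,
      V = fun q => α k (rs (m + 1) 0 (repl q)) := ⟨_, rfl⟩
  have hVm : Measurable V := by
    rw [hV]
    exact (hα k).comp ((measurable_rs _ _).comp hrep.measurable)
  have hshk := sh_mp hREI (π k)
  -- the law of (x, x^1)
  have hpair : MeasurePreserving (fun q : (D → Bool) × (D × ℕ → Bool) =>
      (q.1, rs (m + 1) 0 (repl q))) ((mu D).prod (mu (D × ℕ))) (nu D (m + 1)) := by
    have h1 : MeasurePreserving (fun ω : D × ℕ → Bool => (lay 0 ω, rs (m + 1) 0 ω))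
        (mu (D × ℕ)) (nu D (m + 1)) :=
      ⟨(measurable_lay 0).prodMk (measurable_rs _ _), rfl⟩
    have h2 := h1.comp hrep
    have e : (fun ω : D × ℕ → Bool => (lay 0 ω, rs (m + 1) 0 ω)) ∘ repl =
        fun q : (D → Bool) × (D × ℕ → Bool) => (q.1, rs (m + 1) 0 (repl q)) := by
      funext q
      simp only [Function.comp, lay_repl]
    rw [← e]
    exact h2
  -- the law of x^1
  have hx1 : MeasurePreserving (fun q : (D → Bool) × (D × ℕ → Bool) =>
      rs (m + 1) 0 (repl q)) ((mu D).prod (mu (D × ℕ))) (mu D) := by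
    have h1 : MeasurePreserving (Prod.snd : (D → Bool) × (D → Bool) → (D → Bool))
        (nu D (m + 1)) (mu D) := ⟨measurable_snd, hL6⟩
    exact h1.comp hpair
  have hS := hSGP D ρ hρ Λ (D → Bool) (mu D) (fun s => sh (ρ (FreeGroup.of s)))
    (fun s => sh_mp hREI _) V hVm
    (fun s x => (Equiv.mulLeft (β s (sh (π k) x))).trans (Equiv.mulRight (β s x)⁻¹))
    (by
      intro s l
      simp only [Equiv.trans_apply, Equiv.coe_mulLeft, Equiv.coe_mulRight]
      have h1 : Measurable (fun x => (β s (sh (π k) x), β s x)) :=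
        ((hβ s).comp hshk.measurable).prodMk (hβ s)
      have h2 : Measurable (fun q : Λ × Λ => q.1 * l * q.2⁻¹) := measurable_of_countable _
      exact h2.comp h1)
    (2 * δ) (by positivity)
    (by
      intro s
      -- the bad sets
      have hb1 : ((mu D).prod (mu (D × ℕ))) {q | β s q.1 ≠ β s (rs (m + 1) 0 (repl q))} ≤
          ENNReal.ofReal δ := by
        have h1 : MeasurableSet {q : (D → Bool) × (D → Bool) | β s q.1 ≠ β s q.2} :=
          (measurableSet_eq_fun ((hβ s).comp measurable_fst) ((hβ s).comp measurable_snd)).compl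
        have h2 := hpair.measure_preimage h1.nullMeasurableSet
        refine le_trans (le_of_eq ?_) (hβδ s)
        rw [← h2]
        rfl
      have hb2 : ((mu D).prod (mu (D × ℕ))) {q | β s (sh (π k) q.1) ≠
          β s (sh (π k) (rs (m + 1) 0 (repl q)))} ≤ ENNReal.ofReal δ := by
        have h1 : MeasurableSet {q : (D → Bool) × (D → Bool) | β s q.1 ≠ β s q.2} :=
          (measurableSet_eq_fun ((hβ s).comp measurable_fst) ((hβ s).comp measurable_snd)).compl
        have h3 : MeasurePreserving (fun q : (D → Bool) × (D → Bool) =>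
            (sh (π k) q.1, sh (π k) q.2)) (nu D (m + 1)) (nu D (m + 1)) :=
          ⟨((measurable_sh _).comp measurable_fst).prodMk ((measurable_sh _).comp measurable_snd),
            hL4 (π k)⟩
        have h2 := (h3.comp hpair).measure_preimage h1.nullMeasurableSet
        refine le_trans (le_of_eq ?_) (hβδ s)
        rw [← h2]
        rfl
      have hb3 : ((mu D).prod (mu (D × ℕ))) {q | ¬ (β s (sh (π k) (rs (m + 1) 0 (repl q))) *
          α k (rs (m + 1) 0 (repl q)) = α k (sh (ρ (FreeGroup.of s)) (rs (m + 1) 0 (repl q))) *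
          β s (rs (m + 1) 0 (repl q)))} = 0 := by
        have h1 := hx1.quasiMeasurePreserving.ae (hc2 s k)
        exact h1
      have hsub : {q : (D → Bool) × (D × ℕ → Bool) | V (sh (ρ (FreeGroup.of s)) q.1,
          sh (lift (ρ (FreeGroup.of s))) q.2) ≠
          ((Equiv.mulLeft (β s (sh (π k) q.1))).trans (Equiv.mulRight (β s q.1)⁻¹)) (V q)} ⊆
          ({q | β s q.1 ≠ β s (rs (m + 1) 0 (repl q))} ∪
          {q | β s (sh (π k) q.1) ≠ β s (sh (π k) (rs (m + 1) 0 (repl q)))}) ∪
          {q | ¬ (β s (sh (π k) (rs (m + 1) 0 (repl q))) *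
          α k (rs (m + 1) 0 (repl q)) = α k (sh (ρ (FreeGroup.of s)) (rs (m + 1) 0 (repl q))) *
          β s (rs (m + 1) 0 (repl q)))} := by
        intro q hq
        by_contra hcon
        simp only [mem_union, mem_ofPred_eq, not_or, not_not] at hcon
        obtain ⟨⟨g1, g2⟩, g3⟩ := hcon
        apply hq
        simp only [hV, Equiv.trans_apply, Equiv.coe_mulLeft, Equiv.coe_mulRight]
        rw [show (sh (ρ (FreeGroup.of s)) q.1, sh (lift (ρ (FreeGroup.of s))) q.2) =
          (sh (ρ (FreeGroup.of s)) q.1, sh (lift (ρ (FreeGroup.of s))) q.2) from rfl]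
        rw [repl_sh, rs_sh, g1, g2, g3]
        simp
      refine (measure_mono hsub).trans ?_
      refine (measure_union_le _ _).trans ?_
      rw [hb3, add_zero]
      refine (measure_union_le _ _).trans ?_
      rw [show 2 * δ = δ + δ by ring, ENNReal.ofReal_add hδ0.le hδ0.le]
      exact add_le_add hb1 hb2)
  obtain ⟨v, hvm, hv⟩ := hS
  -- transfer to `nu`
  have hset : MeasurableSet {q : (D → Bool) × (D → Bool) | α k q.2 ≠ v q.1} :=
    (measurableSet_eq_fun ((hα k).comp measurable_snd) (hvm.comp measurable_fst)).compl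
  have hnu : nu D (m + 1) {q | α k q.2 ≠ v q.1} ≤ ENNReal.ofReal (4 * Real.sqrt (2 * (2 * δ))) := by
    rw [← hpair.measure_preimage hset.nullMeasurableSet]
    refine le_trans (le_of_eq ?_) hv
    rw [hV]
    rfl
  have hω1 : mu (D × ℕ) {ω | α k (rs (m + 1) 0 ω) ≠ v (lay 0 ω)} ≤
      ENNReal.ofReal (4 * Real.sqrt (2 * (2 * δ))) := by
    have h1 : MeasurePreserving (fun ω : D × ℕ → Bool => (lay 0 ω, rs (m + 1) 0 ω))
        (mu (D × ℕ)) (nu D (m + 1)) :=
      ⟨(measurable_lay 0).prodMk (measurable_rs _ _), rfl⟩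
    refine le_trans (le_of_eq ?_) hnu
    rw [← h1.measure_preimage hset.nullMeasurableSet]
    rfl
  have hω2 : mu (D × ℕ) {ω | α k (rs (m + 1) 1 ω) ≠ v (lay 0 ω)} ≤
      ENNReal.ofReal (4 * Real.sqrt (2 * (2 * δ))) := by
    have h1 : MeasurePreserving (fun ω : D × ℕ → Bool => (lay 0 ω, rs (m + 1) 1 ω))
        (mu (D × ℕ)) (nu D (m + 1)) :=
      ⟨(measurable_lay 0).prodMk (measurable_rs _ _), hL2'⟩
    refine le_trans (le_of_eq ?_) hnu
    rw [← h1.measure_preimage hset.nullMeasurableSet]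
    rfl
  have h3 : MeasurePreserving (fun ω : D × ℕ → Bool => (rs (m + 1) 0 ω, rs (m + 1) 1 ω))
      (mu (D × ℕ)) (nu D m) :=
    ⟨(measurable_rs _ _).prodMk (measurable_rs _ _), hL3⟩
  have hset2 : MeasurableSet {q : (D → Bool) × (D → Bool) | α k q.1 ≠ α k q.2} :=
    (measurableSet_eq_fun ((hα k).comp measurable_fst) ((hα k).comp measurable_snd)).compl
  rw [← h3.measure_preimage hset2.nullMeasurableSet]
  have hsub : (fun ω : D × ℕ → Bool => (rs (m + 1) 0 ω, rs (m + 1) 1 ω)) ⁻¹'
      {q | α k q.1 ≠ α k q.2} ⊆ {ω | α k (rs (m + 1) 0 ω) ≠ v (lay 0 ω)} ∪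
      {ω | α k (rs (m + 1) 1 ω) ≠ v (lay 0 ω)} := by
    intro ω hω
    by_contra hcon
    simp only [mem_union, mem_ofPred_eq, not_or, not_not] at hcon
    apply hω
    simp only
    rw [hcon.1, hcon.2]
  exact (measure_mono hsub).trans ((measure_union_le _ _).trans ((add_le_add hω1 hω2).trans hδη))

end H14.ES
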